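import Pool.Agent.helper69.NU.B1

set_option autoImplicit false
set_option linter.all false

/-! Module B3: integration on `M` against a measure with smooth density. -/

open MeasureTheory Filter Topology Set
open scoped ContDiff Manifold Matrix ENNReal ComplexOrder

noncomputable section

namespace Pool.Agent.helper63.NU

variable {n : ℕ} {M : Type*} [TopologicalSpace M] [ChartedSpace (E n) M]
  [IsManifold 𝓘(ℂ, E n) ω M]
variable [MeasurableSpace M] [BorelSpace M] {μ : Measure M} {φ : Fam n M ℝ}

/-- the inverse of the chart as an open embedding of the target -/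
def b3g (e : Ch n M) : e.target → M := fun y => e.symm y

theorem b3g_emb (e : Ch n M) : MeasurableEmbedding (b3g e) := by
  have h1 : IsOpenEmbedding (Subtype.val : e.source → M) := e.open_source.isOpenEmbedding_subtypeVal
  have h2 : IsOpenEmbedding (fun y : e.target => ((e.toHomeomorphSourceTarget.symm y : e.source) : M)) :=
    h1.comp e.toHomeomorphSourceTarget.symm.isOpenEmbedding
  have h3 : b3g e = (fun y : e.target => ((e.toHomeomorphSourceTarget.symm y : e.source) : M)) := by
    funext y
    rfl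
  rw [h3]
  exact h2.measurableEmbedding

/-- the density in the chart -/
def b3d (φ : Fam n M ℝ) (e : Ch n M) (y : E n) : ℝ≥0∞ := ENNReal.ofReal (Real.exp (-φ e y))

theorem b3d_aem (hφ : IsWeight 1 φ) {e : Ch n M} (he : e ∈ atlas (E n) M) :
    AEMeasurable (b3d φ e) (volume.restrict e.target) := by
  have hc : ContinuousOn (φ e) e.target := (hφ.smooth e he).continuousOn
  have hc' : ContinuousOn (b3d φ e) e.target := by
    have : ContinuousOn (fun y => Real.exp (-φ e y)) e.target :=
      Real.continuous_exp.comp_continuousOn hc.neg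
    exact ENNReal.continuous_ofReal.comp_continuousOn this
  exact hc'.aemeasurable e.open_target.measurableSet

/-- the measure in the chart -/
def b3n (φ : Fam n M ℝ) (e : Ch n M) : Measure (E n) :=
  (volume.restrict e.target).withDensity (b3d φ e)

theorem b3n_restrict (φ : Fam n M ℝ) (e : Ch n M) : (b3n φ e).restrict e.target = b3n φ e := by
  unfold b3n
  rw [restrict_withDensity e.open_target.measurableSet, Measure.restrict_restrict
    e.open_target.measurableSet, inter_self]

theorem b3_map (hφ : IsWeight 1 φ) (hμ : IsDens μ φ) {e : Ch n M} (he : e ∈ atlas (E n) M) :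
    μ.restrict e.source = ((b3n φ e).comap (Subtype.val : e.target → E n)).map (b3g e) := by
  ext s hs
  have hT := e.open_target.measurableSet
  have h1 := hμ e he (s.indicator 1) (measurable_one.indicator hs)
  rw [lintegral_indicator_one hs] at h1
  rw [h1, (b3g_emb e).map_apply, ← lintegral_indicator_one ((b3g_emb e).measurable hs)]
  have h2 : ∫⁻ y : e.target, (b3g e ⁻¹' s).indicator 1 y ∂((b3n φ e).comap Subtype.val)
      = ∫⁻ y in e.target, s.indicator 1 (e.symm y) ∂(b3n φ e) := by
    rw [← lintegral_subtype_comap hT]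
    rfl
  rw [h2, b3n_restrict]
  unfold b3n
  have hm : AEMeasurable (fun y => s.indicator (1 : M → ℝ≥0∞) (e.symm y))
      (volume.restrict e.target) := by
    have h3 : AEMeasurable e.symm (volume.restrict e.target) :=
      e.continuousOn_symm.aemeasurable hT
    exact (measurable_one.indicator hs).comp_aemeasurable h3
  rw [lintegral_withDensity_eq_lintegral_mul₀ (b3d_aem hφ he) hm]
  refine lintegral_congr fun y => ?_
  simp only [Pi.mul_apply, b3d]
  rw [mul_comm]

theorem ae_restrict_iff_chart (hφ : IsWeight 1 φ) (hμ : IsDens μ φ) {e : Ch n M}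
    (he : e ∈ atlas (E n) M) {p : M → Prop} :
    (∀ᵐ x ∂(μ.restrict e.source), p x) ↔ ∀ᵐ y ∂(volume.restrict e.target), p (e.symm y) := by
  rw [b3_map hφ hμ he, (b3g_emb e).ae_map_iff]
  have hT := e.open_target.measurableSet
  have h1 : (∀ᵐ y ∂((b3n φ e).comap (Subtype.val : e.target → E n)), p (b3g e y)) ↔
      ∀ᵐ y ∂((b3n φ e).restrict e.target), p (e.symm y) :=
    (ae_restrict_iff_subtype hT (p := fun y => p (e.symm y))).symm
  rw [h1, b3n_restrict, b3n, ae_withDensity_iff' (b3d_aem hφ he)]
  have h2 : ∀ y, b3d φ e y ≠ 0 := fun y => by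
    simp [b3d, Real.exp_pos]
  simp only [h2, ne_eq, not_false_eq_true, true_implies]

theorem b3_integral {F : Type*} [NormedAddCommGroup F] [NormedSpace ℝ F]
    (hφ : IsWeight 1 φ) (hμ : IsDens μ φ) {e : Ch n M}
    (he : e ∈ atlas (E n) M) (f : M → F) :
    ∫ x in e.source, f x ∂μ = ∫ y in e.target, Real.exp (-φ e y) • f (e.symm y) := by
  rw [b3_map hφ hμ he, (b3g_emb e).integral_map]
  have hT := e.open_target.measurableSet
  have h1 : ∫ y, f (b3g e y) ∂((b3n φ e).comap (Subtype.val : e.target → E n)) =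
      ∫ y in e.target, f (e.symm y) ∂(b3n φ e) :=
    integral_subtype_comap hT (fun y => f (e.symm y))
  rw [h1, b3n_restrict, b3n, integral_withDensity_eq_integral_toReal_smul₀ (b3d_aem hφ he)]
  · refine integral_congr_ae (Eventually.of_forall fun y => ?_)
    simp only [b3d]
    rw [ENNReal.toReal_ofReal (Real.exp_pos _).le]
  · exact Eventually.of_forall fun y => by simp [b3d]

theorem setIntegral_chart (hφ : IsWeight 1 φ) (hμ : IsDens μ φ) {e : Ch n M}
    (he : e ∈ atlas (E n) M) (f : M → ℂ) :
    ∫ x in e.source, f x ∂μ = ∫ y in e.target, f (e.symm y) * (Real.exp (-φ e y) : ℂ) := by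
  rw [b3_integral hφ hμ he]
  refine integral_congr_ae (Eventually.of_forall fun y => ?_)
  simp only [Complex.real_smul]
  rw [mul_comm]

theorem setIntegral_chart_real (hφ : IsWeight 1 φ) (hμ : IsDens μ φ) {e : Ch n M}
    (he : e ∈ atlas (E n) M) (f : M → ℝ) :
    ∫ x in e.source, f x ∂μ = ∫ y in e.target, f (e.symm y) * Real.exp (-φ e y) := by
  rw [b3_integral hφ hμ he]
  refine integral_congr_ae (Eventually.of_forall fun y => ?_)
  simp only [smul_eq_mul]
  rw [mul_comm]

theorem isFiniteMeasure_of_isDens [CompactSpace M] [T2Space M] (hφ : IsWeight 1 φ)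
    (hμ : IsDens μ φ) : IsFiniteMeasure μ := by
  have hloc : IsLocallyFiniteMeasure μ := by
    refine ⟨fun x => ?_⟩
    set e := chartAt (E n) x with he_def
    have he : e ∈ atlas (E n) M := chart_mem_atlas (E n) x
    have hx : x ∈ e.source := mem_chart_source (E n) x
    have hex : e x ∈ e.target := e.map_source hx
    obtain ⟨r, hr, hball⟩ := Metric.nhds_basis_closedBall.mem_iff.1 (e.open_target.mem_nhds hex)
    have hc : ContinuousOn (fun y => Real.exp (-φ e y)) (Metric.closedBall (e x) r) :=
      Real.continuous_exp.comp_continuousOn ((hφ.smooth e he).continuousOn.mono hball).neg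
    obtain ⟨C, hC⟩ := (isCompact_closedBall (e x) r).exists_bound_of_continuousOn hc
    set U : Set M := e.source ∩ e ⁻¹' Metric.ball (e x) r with hU_def
    have hUo : IsOpen U := e.isOpen_inter_preimage Metric.isOpen_ball
    have hxU : x ∈ U := ⟨hx, Metric.mem_ball_self hr⟩
    refine ⟨U, hUo.mem_nhds hxU, ?_⟩
    have h1 := hμ e he (U.indicator 1) (measurable_one.indicator hUo.measurableSet)
    rw [lintegral_indicator_one hUo.measurableSet,
      Measure.restrict_apply hUo.measurableSet] at h1
    have h2 : U ∩ e.source = U := inter_eq_left.2 inter_subset_left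
    rw [h2] at h1
    rw [h1]
    have h3 : ∀ y ∈ e.target, U.indicator (1 : M → ℝ≥0∞) (e.symm y) *
        ENNReal.ofReal (Real.exp (-φ e y)) ≤
        (Metric.closedBall (e x) r).indicator (fun _ => ENNReal.ofReal C) y := by
      intro y hy
      by_cases hyU : e.symm y ∈ U
      · have hyb : y ∈ Metric.closedBall (e x) r := by
          have := hyU.2
          rw [mem_preimage, e.right_inv hy] at this
          exact Metric.ball_subset_closedBall this
        rw [indicator_of_mem hyU, indicator_of_mem hyb, Pi.one_apply, one_mul]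
        refine ENNReal.ofReal_le_ofReal ?_
        have := hC y hyb
        rw [Real.norm_eq_abs] at this
        exact (le_abs_self _).trans this
      · rw [indicator_of_notMem hyU, zero_mul]
        exact bot_le
    calc ∫⁻ y in e.target, U.indicator (1 : M → ℝ≥0∞) (e.symm y) *
        ENNReal.ofReal (Real.exp (-φ e y))
        ≤ ∫⁻ y in e.target, (Metric.closedBall (e x) r).indicator (fun _ => ENNReal.ofReal C) y :=
          setLIntegral_mono' e.open_target.measurableSet h3
      _ ≤ ∫⁻ y, (Metric.closedBall (e x) r).indicator (fun _ => ENNReal.ofReal C) y :=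
          setLIntegral_le_lintegral _ _
      _ = ENNReal.ofReal C * volume (Metric.closedBall (e x) r) := by
          rw [lintegral_indicator_const Metric.isClosed_closedBall.measurableSet]
      _ < (⊤ : ℝ≥0∞) := ENNReal.mul_lt_top ENNReal.ofReal_lt_top
          (isCompact_closedBall (e x) r).measure_lt_top
  infer_instance

theorem isOpenPosMeasure_of_isDens (hφ : IsWeight 1 φ) (hμ : IsDens μ φ) :
    μ.IsOpenPosMeasure := by
  refine ⟨fun U hU hne h0 => ?_⟩
  obtain ⟨x, hxU⟩ := hne
  set e := chartAt (E n) x with he_def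
  have he : e ∈ atlas (E n) M := chart_mem_atlas (E n) x
  have hx : x ∈ e.source := mem_chart_source (E n) x
  have h1 : ∀ᵐ z ∂(μ.restrict e.source), z ∉ U := by
    refine ae_restrict_of_ae ?_
    exact measure_eq_zero_iff_ae_notMem.1 h0
  rw [ae_restrict_iff_chart hφ hμ he, ae_restrict_iff' e.open_target.measurableSet] at h1
  have h2 : volume (e.target ∩ e.symm ⁻¹' U) = 0 := by
    rw [measure_eq_zero_iff_ae_notMem]
    filter_upwards [h1] with y hy hy'
    exact hy hy'.1 hy'.2
  have h3 : IsOpen (e.target ∩ e.symm ⁻¹' U) := e.isOpen_inter_preimage_symm hU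
  have h4 : (e.target ∩ e.symm ⁻¹' U).Nonempty := by
    refine ⟨e x, e.map_source hx, ?_⟩
    rw [mem_preimage, e.left_inv hx]
    exact hxU
  exact h3.measure_ne_zero volume h4 h2

theorem fn_eq (hφ : IsWeight 1 φ) {f : Fam n M ℂ} (hf : IsDen f) {e : Ch n M}
    (he : e ∈ atlas (E n) M) {x : M} (hx : x ∈ e.source) :
    fn φ f x = f e (e x) * (Real.exp (φ e (e x)) : ℂ) := by
  unfold fn
  set e' := chartAt (E n) x with he'_def
  have he' : e' ∈ atlas (E n) M := chart_mem_atlas (E n) x
  have hx' : x ∈ e'.source := mem_chart_source (E n) x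
  have h1 := hf e' he' e he x ⟨hx', hx⟩
  have h2 := hφ.trans e' he' e he x ⟨hx', hx⟩
  have h3 : jac e' e (e' x) ≠ 0 := jac_ne_zero he' he hx' hx
  have h4 : (0 : ℝ) < ‖jac e' e (e' x)‖ ^ 2 := by positivity
  rw [h1, h2, Nat.cast_one, one_mul, Real.exp_sub, Real.exp_log h4]
  push_cast
  have h5 : ((‖jac e' e (e' x)‖ : ℂ)) ≠ 0 := by
    exact_mod_cast norm_ne_zero_iff.2 h3
  field_simp

theorem setIntegral_fn (hφ : IsWeight 1 φ) (hμ : IsDens μ φ) {f : Fam n M ℂ} (hf : IsDen f)
    {e : Ch n M} (he : e ∈ atlas (E n) M) :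
    ∫ x in e.source, fn φ f x ∂μ = ∫ y in e.target, f e y := by
  rw [setIntegral_chart hφ hμ he]
  refine setIntegral_congr_fun e.open_target.measurableSet fun y hy => ?_
  change fn φ f (e.symm y) * (Real.exp (-φ e y) : ℂ) = f e y
  rw [fn_eq hφ hf he (e.map_target hy), e.right_inv hy, mul_assoc, ← Complex.ofReal_mul,
    ← Real.exp_add]
  simp

theorem continuous_fn (hφ : IsWeight 1 φ) {f : Fam n M ℂ} (hf : IsDen f)
    (hc : ∀ e ∈ atlas (E n) M, ContinuousOn (f e) e.target) : Continuous (fn φ f) := by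
  rw [continuous_iff_continuousAt]
  intro x
  set e := chartAt (E n) x with he_def
  have he : e ∈ atlas (E n) M := chart_mem_atlas (E n) x
  have hx : x ∈ e.source := mem_chart_source (E n) x
  have h1 : ContinuousAt (fun x' => f e (e x') * (Real.exp (φ e (e x')) : ℂ)) x := by
    have ha : ContinuousAt e x := e.continuousAt hx
    have hb : e.target ∈ 𝓝 (e x) := e.open_target.mem_nhds (e.map_source hx)
    have h2 : ContinuousAt (fun x' => f e (e x')) x :=
      ContinuousAt.comp ((hc e he).continuousAt hb) ha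
    have h3 : ContinuousAt (fun x' => φ e (e x')) x :=
      ContinuousAt.comp (f := e) (((hφ.smooth e he).continuousOn).continuousAt hb) ha
    exact h2.mul (Complex.continuous_ofReal.continuousAt.comp
      (Real.continuous_exp.continuousAt.comp h3))
  refine h1.congr ?_
  filter_upwards [e.open_source.mem_nhds hx] with x' hx'
  exact (fn_eq hφ hf he hx').symm

theorem pr_isDen {k : ℕ} {ψ : Fam n M ℝ} (hψ : IsWeight (k + 1) ψ) {s t : Fam n M ℂ}
    (hs : IsSec k s) (ht : IsSec k t) : IsDen (pr ψ s t) := by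
  intro e he e' he' x hx
  have h3 : jac e e' (e x) ≠ 0 := jac_ne_zero he he' hx.1 hx.2
  have h4 : (0 : ℝ) < ‖jac e e' (e x)‖ ^ 2 := by positivity
  have h1 := hs.trans e he e' he' x hx
  have h2 := ht.trans e he e' he' x hx
  have h5 := hψ.trans e he e' he' x hx
  unfold pr
  rw [h1, h2, h5, neg_sub, sub_eq_add_neg, Real.exp_add]
  have h6 : Real.exp (((k + 1 : ℕ) : ℝ) * Real.log (‖jac e e' (e x)‖ ^ 2)) =
      (‖jac e e' (e x)‖ ^ 2) ^ (k + 1) := by
    rw [mul_comm, Real.exp_mul, Real.exp_log h4, Real.rpow_natCast]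
  rw [h6]
  have h7 : ((‖jac e e' (e x)‖ ^ 2 : ℝ) : ℂ) =
      jac e e' (e x) * (starRingEnd ℂ) (jac e e' (e x)) := by
    rw [Complex.mul_conj, Complex.normSq_eq_norm_sq]
  rw [Complex.ofReal_mul, Complex.ofReal_pow, h7, map_mul, map_pow]
  ring

theorem nrm_eq {k : ℕ} (hφ : IsWeight 1 φ) {s : Fam n M ℂ} (hs : IsSec k s) {e : Ch n M}
    (he : e ∈ atlas (E n) M) {x : M} (hx : x ∈ e.source) :
    nrm k φ s x = ‖s e (e x)‖ ^ 2 * Real.exp (-(k * φ e (e x))) := by
  unfold nrm
  set e' := chartAt (E n) x with he'_def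
  have he' : e' ∈ atlas (E n) M := chart_mem_atlas (E n) x
  have hx' : x ∈ e'.source := mem_chart_source (E n) x
  have h1 := hs.trans e' he' e he x ⟨hx', hx⟩
  have h2 := hφ.trans e' he' e he x ⟨hx', hx⟩
  have h3 : jac e' e (e' x) ≠ 0 := jac_ne_zero he' he hx' hx
  have h4 : (0 : ℝ) < ‖jac e' e (e' x)‖ ^ 2 := by positivity
  rw [h1, h2, Nat.cast_one, one_mul, mul_sub, neg_sub, sub_eq_add_neg, Real.exp_add]
  have h6 : Real.exp ((k : ℝ) * Real.log (‖jac e' e (e' x)‖ ^ 2)) =
      (‖jac e' e (e' x)‖ ^ 2) ^ k := by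
    rw [mul_comm, Real.exp_mul, Real.exp_log h4, Real.rpow_natCast]
  rw [h6, norm_mul, norm_pow]
  ring

theorem hp_eq {k : ℕ} (hφ : IsWeight 1 φ) {s t : Fam n M ℂ} (hs : IsSec k s) (ht : IsSec k t)
    {e : Ch n M} (he : e ∈ atlas (E n) M) {x : M} (hx : x ∈ e.source) :
    hp k φ s t x = s e (e x) * (starRingEnd ℂ) (t e (e x)) * (Real.exp (-(k * φ e (e x))) : ℂ) := by
  unfold hp
  set e' := chartAt (E n) x with he'_def
  have he' : e' ∈ atlas (E n) M := chart_mem_atlas (E n) x
  have hx' : x ∈ e'.source := mem_chart_source (E n) x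
  have h1 := hs.trans e' he' e he x ⟨hx', hx⟩
  have h1' := ht.trans e' he' e he x ⟨hx', hx⟩
  have h2 := hφ.trans e' he' e he x ⟨hx', hx⟩
  have h3 : jac e' e (e' x) ≠ 0 := jac_ne_zero he' he hx' hx
  have h4 : (0 : ℝ) < ‖jac e' e (e' x)‖ ^ 2 := by positivity
  rw [h1, h1', h2, Nat.cast_one, one_mul, mul_sub, neg_sub, sub_eq_add_neg, Real.exp_add]
  have h6 : Real.exp ((k : ℝ) * Real.log (‖jac e' e (e' x)‖ ^ 2)) =
      (‖jac e' e (e' x)‖ ^ 2) ^ k := by
    rw [mul_comm, Real.exp_mul, Real.exp_log h4, Real.rpow_natCast]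
  have h7 : ((‖jac e' e (e' x)‖ ^ 2 : ℝ) : ℂ) =
      jac e' e (e' x) * (starRingEnd ℂ) (jac e' e (e' x)) := by
    rw [Complex.mul_conj, Complex.normSq_eq_norm_sq]
  rw [h6, Complex.ofReal_mul, Complex.ofReal_pow, h7, map_mul, map_pow]
  ring

theorem continuous_nrm {k : ℕ} (hφ : IsWeight 1 φ) {s : Fam n M ℂ} (hs : IsSec k s) :
    Continuous (nrm k φ s) := by
  rw [continuous_iff_continuousAt]
  intro x
  set e := chartAt (E n) x with he_def
  have he : e ∈ atlas (E n) M := chart_mem_atlas (E n) x
  have hx : x ∈ e.source := mem_chart_source (E n) x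
  have h1 : ContinuousAt (fun x' => ‖s e (e x')‖ ^ 2 * Real.exp (-(k * φ e (e x')))) x := by
    have ha : ContinuousAt e x := e.continuousAt hx
    have hb : e.target ∈ 𝓝 (e x) := e.open_target.mem_nhds (e.map_source hx)
    have h2 : ContinuousAt (fun x' => s e (e x')) x :=
      ContinuousAt.comp (f := e) ((hs.smooth e he).continuousOn.continuousAt hb) ha
    have h3 : ContinuousAt (fun x' => φ e (e x')) x :=
      ContinuousAt.comp (f := e) (((hφ.smooth e he).continuousOn).continuousAt hb) ha
    exact (h2.norm.pow 2).mul (Real.continuous_exp.continuousAt.comp (h3.const_mul _).neg)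
  refine h1.congr ?_
  filter_upwards [e.open_source.mem_nhds hx] with x' hx'
  exact (nrm_eq hφ hs he hx').symm

theorem continuous_hp {k : ℕ} (hφ : IsWeight 1 φ) {s t : Fam n M ℂ} (hs : IsSec k s)
    (ht : IsSec k t) : Continuous (hp k φ s t) := by
  rw [continuous_iff_continuousAt]
  intro x
  set e := chartAt (E n) x with he_def
  have he : e ∈ atlas (E n) M := chart_mem_atlas (E n) x
  have hx : x ∈ e.source := mem_chart_source (E n) x
  have h1 : ContinuousAt (fun x' => s e (e x') * (starRingEnd ℂ) (t e (e x')) *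
      (Real.exp (-(k * φ e (e x'))) : ℂ)) x := by
    have ha : ContinuousAt e x := e.continuousAt hx
    have hb : e.target ∈ 𝓝 (e x) := e.open_target.mem_nhds (e.map_source hx)
    have h2 : ContinuousAt (fun x' => s e (e x')) x :=
      ContinuousAt.comp (f := e) ((hs.smooth e he).continuousOn.continuousAt hb) ha
    have h2' : ContinuousAt (fun x' => t e (e x')) x :=
      ContinuousAt.comp (f := e) ((ht.smooth e he).continuousOn.continuousAt hb) ha
    have h3 : ContinuousAt (fun x' => φ e (e x')) x :=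
      ContinuousAt.comp (f := e) (((hφ.smooth e he).continuousOn).continuousAt hb) ha
    have h4 : ContinuousAt (fun x' => (starRingEnd ℂ) (t e (e x'))) x :=
      Complex.continuous_conj.continuousAt.comp h2'
    exact (h2.mul h4).mul (Complex.continuous_ofReal.continuousAt.comp
      (Real.continuous_exp.continuousAt.comp (h3.const_mul _).neg))
  refine h1.congr ?_
  filter_upwards [e.open_source.mem_nhds hx] with x' hx'
  exact (hp_eq hφ hs ht he hx').symm

end Pool.Agent.helper63.NU
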