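import Pool.Agent.helper51.NU.Q9d

set_option autoImplicit false
set_option linter.all false

/-! Module Q9: jets of order `(n+1)k` of the sections of `-kK`. -/

open MeasureTheory Filter Topology Set
open scoped ContDiff Manifold Matrix ENNReal ComplexOrder

noncomputable section

namespace Pool.Agent.helper63.NU

variable {n : ℕ} {M : Type*} [TopologicalSpace M] [ChartedSpace (E n) M]
  [IsManifold 𝓘(ℂ, E n) ω M]
variable [CompactSpace M] [T2Space M] [ConnectedSpace M]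
variable [MeasurableSpace M] [BorelSpace M] {μ : Measure M} {φ : Fam n M ℝ}

/-- sections of `-kK` have arbitrary jets of order `(n+1)k` at every point -/
theorem jetsIso [IsProbabilityMeasure μ] (hn : 0 < n) (hφ : IsPos 1 φ) (hμ : IsDens μ φ)
    (hstar : ∀ k : ℕ, 1 ≤ k → ∀ e ∈ atlas (E n) M, ∀ p ∈ e.target, ∀ s ∈ H0 n M k, s ≠ 0 →
      ∀ m, VanO (s e) p m → m ≤ (n + 1) * k)
    (hgen : ∀ δ > (0 : ℝ), ∃ K₀ : ℕ, ∀ K ≥ K₀, ∃ e ∈ atlas (E n) M, ∃ p ∈ e.target,
      ∀ m : ℕ, (m : ℝ) ≤ (n + 1 - δ) * K → ∀ P : E n → ℂ, HolAt P p →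
        ∃ s ∈ H0 n M K, VanO (fun y => s e y - P y) p (m + 1)) : JetsIso n M := by
  intro k hk
  have hinj : ∀ e ∈ atlas (E n) M, ∀ p ∈ e.target, ∀ s ∈ H0 n M k,
      VanO (s e) p ((n + 1) * k + 1) → s = 0 := by
    intro e he p hp s hs hv
    by_contra hne
    have := hstar k hk e he p hp s hs hne _ hv
    omega
  have hn0 : (0 : ℝ) < n := by exact_mod_cast hn
  have hk0 : (1 : ℝ) ≤ k := by exact_mod_cast hk
  obtain ⟨K₀, hK₀⟩ := hgen (1 / (4 * (k + 1))) (by positivity)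
  set K : ℕ := max K₀ (4 * (k + 1)) with hK
  obtain ⟨e₀, he₀, p₀, hp₀, hj⟩ := hK₀ K (le_max_left _ _)
  have hK4 : (4 : ℝ) * (k + 1) ≤ K := by
    have : 4 * (k + 1) ≤ K := le_max_right _ _
    exact_mod_cast this
  have hK1 : 1 ≤ K := by
    have : 4 * (k + 1) ≤ K := le_max_right _ _
    omega
  have hKpos : (0 : ℝ) < K := by linarith
  set δ : ℝ := 1 / (4 * (k + 1)) with hδ
  have hδ1 : δ * (k + 1) = 1 / 4 := by rw [hδ]; field_simp
  have hδ0 : 0 < δ := by rw [hδ]; positivity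
  have hδle : δ ≤ 1 := by
    have : δ * 1 ≤ δ * (k + 1) := by gcongr; linarith
    linarith
  set m : ℕ := ⌊((n : ℝ) + 1 - δ) * K⌋₊ with hm
  have hm1 : (m : ℝ) ≤ (n + 1 - δ) * K := Nat.floor_le (by
    have : 0 ≤ (n : ℝ) + 1 - δ := by linarith
    positivity)
  have hm2 : (n + 1 - δ) * K - 1 < m := by
    have := Nat.lt_floor_add_one (((n : ℝ) + 1 - δ) * K)
    linarith
  set a0 : ℝ := 1 / (4 * (n + 1)) with ha0
  have ha01 : a0 * (n + 1) = 1 / 4 := by rw [ha0]; field_simp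
  have ha00 : 0 < a0 := by rw [ha0]; positivity
  have ha0le : a0 ≤ 1 / 4 := by
    have : a0 * 1 ≤ a0 * (n + 1) := by gcongr; linarith
    linarith
  have hmain := Q9.main (D := (n + 1) * k) (m := m) hn hφ hμ hk hK1 ha00 (by linarith) (by
    rw [div_mul_eq_mul_div, le_div_iff₀ hKpos]
    push_cast
    have hb : 0 ≤ (k : ℝ) + 1 - a0 := by linarith
    have h1 : (k + 1 - a0) * ((n + 1 - δ) * K - 1) ≤ (k + 1 - a0) * m := by gcongr
    refine le_trans ?_ h1
    have h2 : (k + 1 : ℝ) ≤ K / 4 := by linarith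
    have h3 : (k + 1 - a0) * ((n + 1 - δ) * K - 1) =
        ((k + 1) * (n + 1) - δ * (k + 1) - a0 * (n + 1)) * K + a0 * δ * K - (k + 1) + a0 := by
      ring
    rw [h3, hδ1, ha01]
    have h4 : 0 ≤ a0 * δ * K := by positivity
    nlinarith [h2, h4, hKpos]) he₀ hp₀ (hj m hm1)
  have htr := Q9.transfer hinj he₀ hp₀ hmain
  intro e he p hp
  exact ⟨hinj e he p hp, htr e he p hp⟩

end Pool.Agent.helper63.NU
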