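import Pool.Agent.helper63.NU.Defs3
import Pool.Agent.helper41.NU.A1
import Pool.Agent.helper69.NU.A9

set_option autoImplicit false
set_option linter.all false

/-! Module Q9, part a: jets. -/

open MeasureTheory Filter Topology Set
open scoped ContDiff Manifold Matrix ENNReal ComplexOrder

noncomputable section

namespace Pool.Agent.helper63.NU

namespace Q9

variable {n : ℕ}

theorem holAt_iff {f : E n → ℂ} {p : E n} :
    HolAt f p ↔ ∃ r > 0, DifferentiableOn ℂ f (Metric.ball p r) := by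
  constructor
  · intro h
    obtain ⟨r, hr, h1⟩ := Metric.eventually_nhds_iff_ball.1 h
    exact ⟨r, hr, fun y hy => (h1 y hy).differentiableWithinAt⟩
  · rintro ⟨r, hr, h⟩
    filter_upwards [Metric.ball_mem_nhds p hr] with y hy
    exact h.differentiableAt (Metric.isOpen_ball.mem_nhds hy)

theorem holAt_of_on {U : Set (E n)} (hU : IsOpen U) {f : E n → ℂ} (hf : DifferentiableOn ℂ f U)
    {p : E n} (hp : p ∈ U) : HolAt f p := by
  filter_upwards [hU.mem_nhds hp] with y hy
  exact hf.differentiableAt (hU.mem_nhds hy)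

theorem van_zero {f : E n → ℂ} {p : E n} {m : ℕ} (h : VanO f p (m + 1)) : f p = 0 := by
  obtain ⟨K, hK⟩ := h
  have h1 := hK.self_of_nhds
  rw [sub_self, norm_zero, zero_pow (Nat.succ_ne_zero m), mul_zero] at h1
  exact norm_le_zero_iff.1 h1

theorem van_dz {f : E n → ℂ} {p : E n} (hf : HolAt f p) {m : ℕ} (h : VanO f p (m + 1))
    (j : Fin n) : VanO (dz j f) p m := by
  obtain ⟨r1, hr1, hd⟩ := holAt_iff.1 hf
  obtain ⟨K, hK⟩ := h
  obtain ⟨r2, hr2, hK'⟩ := Metric.eventually_nhds_iff_ball.1 hK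
  set r := min r1 r2 with hr_def
  have hr : 0 < r := lt_min hr1 hr2
  set K' := max K 0 with hK'_def
  refine ⟨K' * 3 ^ (m + 1), ?_⟩
  filter_upwards [Metric.ball_mem_nhds p (show 0 < r / 3 by positivity)] with y hy
  rw [Metric.mem_ball, dist_eq_norm] at hy
  set s := ‖y - p‖ with hs
  have hs0 : 0 ≤ s := norm_nonneg _
  have key : ∀ δ : ℝ, s < δ → δ < r / 3 → ‖dz j f y‖ ≤ K' * 3 ^ (m + 1) * δ ^ m := by
    intro δ h1 h2
    have hδ : 0 < δ := hs0.trans_lt h1
    have hsub : Metric.ball y (2 * δ) ⊆ Metric.ball p (3 * δ) := by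
      intro z hz
      rw [Metric.mem_ball] at hz ⊢
      have := dist_triangle z y p
      rw [dist_eq_norm y p] at this
      linarith
    have hsub1 : Metric.ball p (3 * δ) ⊆ Metric.ball p r1 :=
      Metric.ball_subset_ball (by have := min_le_left r1 r2; linarith)
    have hsub2 : Metric.ball p (3 * δ) ⊆ Metric.ball p r2 :=
      Metric.ball_subset_ball (by have := min_le_right r1 r2; linarith)
    have h3 := A9aux.norm_dz_le (p := y) (r := 2 * δ) (M := K' * (3 * δ) ^ (m + 1)) (δ := δ) hδ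
      (hd.mono (hsub.trans hsub1)) (fun z hz => by
        have hz' := hsub hz
        have h4 := hK' z (hsub2 hz')
        rw [Metric.mem_ball, dist_eq_norm] at hz'
        refine h4.trans ?_
        have h5 : ‖z - p‖ ^ (m + 1) ≤ (3 * δ) ^ (m + 1) :=
          pow_le_pow_left₀ (norm_nonneg _) hz'.le _
        calc K * ‖z - p‖ ^ (m + 1) ≤ K' * ‖z - p‖ ^ (m + 1) := by
              gcongr; exact le_max_left _ _
          _ ≤ K' * (3 * δ) ^ (m + 1) := by
              have : 0 ≤ K' := le_max_right _ _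
              gcongr) j (q := y) (by rw [Metric.mem_ball, dist_self]; linarith)
    refine h3.trans (le_of_eq ?_)
    rw [mul_pow, pow_succ δ m]
    field_simp
  have hlim : Tendsto (fun δ : ℝ => K' * 3 ^ (m + 1) * δ ^ m) (𝓝[>] s)
      (𝓝 (K' * 3 ^ (m + 1) * s ^ m)) := by
    have : Continuous (fun δ : ℝ => K' * 3 ^ (m + 1) * δ ^ m) := by fun_prop
    exact (this.tendsto s).mono_left nhdsWithin_le_nhds
  refine ge_of_tendsto hlim ?_
  filter_upwards [self_mem_nhdsWithin, mem_nhdsWithin_of_mem_nhds (Iio_mem_nhds hy)] with δ h1 h2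
  exact key δ h1 h2

theorem holAt_dz {f : E n → ℂ} {p : E n} (hf : HolAt f p) (j : Fin n) : HolAt (dz j f) p := by
  obtain ⟨r, hr, hd⟩ := holAt_iff.1 hf
  exact holAt_iff.2 ⟨r, hr, A9aux.hol_dz Metric.isOpen_ball hd j⟩

theorem tc_zero_of_van : ∀ (l : ℕ) (f : E n → ℂ) (p : E n) (m : ℕ), HolAt f p → VanO f p m →
    l < m → ∀ α : Fin l → Fin n, tc l α f p = 0 := by
  intro l
  induction l with
  | zero =>
    intro f p m _ hv hm α
    obtain ⟨m', rfl⟩ : ∃ m', m = m' + 1 := ⟨m - 1, by omega⟩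
    exact van_zero hv
  | succ l ih =>
    intro f p m hf hv hm α
    obtain ⟨m', rfl⟩ : ∃ m', m = m' + 1 := ⟨m - 1, by omega⟩
    exact ih (dz (α 0) f) p m' (holAt_dz hf _) (van_dz hf hv _) (by omega) _

theorem tc_congr {U : Set (E n)} (hU : IsOpen U) : ∀ (l : ℕ) (α : Fin l → Fin n)
    (f g : E n → ℂ), (∀ y ∈ U, f y = g y) → ∀ y ∈ U, tc l α f y = tc l α g y := by
  intro l
  induction l with
  | zero => intro α f g h y hy; exact h y hy
  | succ l ih =>
    intro α f g h y hy
    refine ih _ (dz (α 0) f) (dz (α 0) g) (fun z hz => ?_) y hy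
    refine dz_congr ?_ _
    filter_upwards [hU.mem_nhds hz] with w hw
    exact h w hw

theorem tc_add {U : Set (E n)} (hU : IsOpen U) : ∀ (l : ℕ) (α : Fin l → Fin n)
    (f g : E n → ℂ), DifferentiableOn ℂ f U → DifferentiableOn ℂ g U →
    ∀ y ∈ U, tc l α (fun z => f z + g z) y = tc l α f y + tc l α g y := by
  intro l
  induction l with
  | zero => intro α f g _ _ y _; rfl
  | succ l ih =>
    intro α f g hf hg y hy
    have h1 : ∀ z ∈ U, dz (α 0) (fun z => f z + g z) z = dz (α 0) f z + dz (α 0) g z := by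
      intro z hz
      exact dz_add ((hf.differentiableAt (hU.mem_nhds hz)).restrictScalars ℝ)
        ((hg.differentiableAt (hU.mem_nhds hz)).restrictScalars ℝ) _
    have h2 := tc_congr hU l (fun i => α i.succ) _ _ h1 y hy
    have h3 := ih (fun i => α i.succ) (dz (α 0) f) (dz (α 0) g) (A9aux.hol_dz hU hf _)
      (A9aux.hol_dz hU hg _) y hy
    change tc l (fun i => α i.succ) (dz (α 0) (fun z => f z + g z)) y = _
    rw [h2, h3]
    rfl

theorem tc_smul {U : Set (E n)} (hU : IsOpen U) (c : ℂ) : ∀ (l : ℕ) (α : Fin l → Fin n)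
    (f : E n → ℂ), ∀ y ∈ U, tc l α (fun z => c * f z) y = c * tc l α f y := by
  intro l
  induction l with
  | zero => intro α f y _; rfl
  | succ l ih =>
    intro α f y hy
    have h1 : ∀ z ∈ U, dz (α 0) (fun z => c * f z) z = c * dz (α 0) f z := by
      intro z hz
      exact dz_const_mul c f z _
    have h2 := tc_congr hU l (fun i => α i.succ) _ _ h1 y hy
    have h3 := ih (fun i => α i.succ) (dz (α 0) f) y hy
    change tc l (fun i => α i.succ) (dz (α 0) (fun z => c * f z)) y = _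
    rw [h2, h3]
    rfl

theorem tc_translate (c : E n) : ∀ (l : ℕ) (α : Fin l → Fin n) (f : E n → ℂ) (y : E n),
    tc l α (fun z => f (z + c)) y = tc l α f (y + c) := by
  intro l
  induction l with
  | zero => intro α f y; rfl
  | succ l ih =>
    intro α f y
    have h1 : dz (α 0) (fun z => f (z + c)) = fun z => dz (α 0) f (z + c) := by
      funext z
      unfold dz
      rw [fderiv_comp_add_right]
    change tc l (fun i => α i.succ) (dz (α 0) (fun z => f (z + c))) y = _
    rw [h1]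
    exact ih _ (dz (α 0) f) y

/-- space of jets of order `D` -/
abbrev JP (n D : ℕ) : Type := (l : Fin (D + 1)) → (Fin (l : ℕ) → Fin n) → ℂ

/-- the jet of order `D` of a function -/
def jet (D : ℕ) (p : E n) (f : E n → ℂ) : JP n D := fun l α => tc l α f p

theorem jet_zero_iff {D : ℕ} {p : E n} {f : E n → ℂ} (hf : HolAt f p) :
    jet D p f = 0 ↔ VanO f p (D + 1) := by
  constructor
  · intro h
    obtain ⟨r, hr, hd⟩ := holAt_iff.1 hf
    refine vanish_of_tc Metric.isOpen_ball hd (Metric.mem_ball_self hr) (D + 1) fun l hl α => ?_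
    exact congrFun (congrFun h ⟨l, hl⟩) α
  · intro h
    funext l α
    exact tc_zero_of_van l f p (D + 1) hf h l.2 α

theorem jet_add {D : ℕ} {p : E n} {f g : E n → ℂ} (hf : HolAt f p) (hg : HolAt g p) :
    jet D p (fun z => f z + g z) = jet D p f + jet D p g := by
  obtain ⟨r, hr, hd⟩ := holAt_iff.1 hf
  obtain ⟨r', hr', hd'⟩ := holAt_iff.1 hg
  funext l α
  exact tc_add (U := Metric.ball p (min r r')) Metric.isOpen_ball l α f g
    (hd.mono (Metric.ball_subset_ball (min_le_left _ _)))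
    (hd'.mono (Metric.ball_subset_ball (min_le_right _ _))) p
    (Metric.mem_ball_self (lt_min hr hr'))

theorem jet_smul {D : ℕ} {p : E n} {f : E n → ℂ} (c : ℂ) :
    jet D p (fun z => c * f z) = c • jet D p f := by
  funext l α
  exact tc_smul isOpen_univ c l α f p (mem_univ _)

theorem holAt_add {p : E n} {f g : E n → ℂ} (hf : HolAt f p) (hg : HolAt g p) :
    HolAt (fun z => f z + g z) p := by
  filter_upwards [hf, hg] with y h1 h2
  exact h1.add h2

theorem holAt_sub {p : E n} {f g : E n → ℂ} (hf : HolAt f p) (hg : HolAt g p) :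
    HolAt (fun z => f z - g z) p := by
  filter_upwards [hf, hg] with y h1 h2
  exact h1.sub h2

theorem holAt_smul {p : E n} {f : E n → ℂ} (c : ℂ) (hf : HolAt f p) :
    HolAt (fun z => c * f z) p := by
  filter_upwards [hf] with y h1
  exact h1.const_mul c

theorem jet_sub {D : ℕ} {p : E n} {f g : E n → ℂ} (hf : HolAt f p) (hg : HolAt g p) :
    jet D p (fun z => f z - g z) = jet D p f - jet D p g := by
  have h1 := jet_add (D := D) hf (holAt_smul (-1) hg)
  rw [jet_smul] at h1
  have h2 : (fun z => f z - g z) = fun z => f z + -1 * g z := by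
    funext z; ring
  rw [h2, h1]
  simp [sub_eq_add_neg]

/-- jets of holomorphic functions -/
def JS (n D : ℕ) (p : E n) : Submodule ℂ (JP n D) where
  carrier := {v | ∃ f, HolAt f p ∧ jet D p f = v}
  add_mem' := by
    rintro _ _ ⟨f, hf, rfl⟩ ⟨g, hg, rfl⟩
    exact ⟨_, holAt_add hf hg, jet_add hf hg⟩
  zero_mem' := by
    refine ⟨fun _ => 0, Filter.Eventually.of_forall fun y => differentiableAt_const _, ?_⟩
    rw [jet_zero_iff (Filter.Eventually.of_forall fun y => differentiableAt_const _)]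
    exact ⟨0, Filter.Eventually.of_forall fun y => by simp⟩
  smul_mem' := by
    rintro c _ ⟨f, hf, rfl⟩
    exact ⟨_, holAt_smul c hf, jet_smul c⟩

theorem JS_le (D : ℕ) (p q : E n) : JS n D p ≤ JS n D q := by
  rintro _ ⟨f, hf, rfl⟩
  refine ⟨fun z => f (z + (p - q)), ?_, ?_⟩
  · have h1 : Tendsto (fun z : E n => z + (p - q)) (𝓝 q) (𝓝 p) := by
      have : Tendsto (fun z : E n => z + (p - q)) (𝓝 q) (𝓝 (q + (p - q))) :=
        (continuous_id.add continuous_const).tendsto q
      simpa using this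
    filter_upwards [h1.eventually hf] with y hy
    exact DifferentiableAt.comp (f := fun z : E n => z + (p - q)) y hy (by fun_prop)
  · funext l α
    have h1 := tc_translate (p - q) l α f q
    rw [add_sub_cancel] at h1
    exact h1

theorem JS_eq (D : ℕ) (p q : E n) : JS n D p = JS n D q := le_antisymm (JS_le D p q) (JS_le D q p)

section Global

variable {M : Type*} [TopologicalSpace M] [ChartedSpace (E n) M]

theorem holAt_sec {k : ℕ} {s : Fam n M ℂ} (hs : s ∈ H0 n M k) {e : Ch n M}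
    (he : e ∈ atlas (E n) M) {p : E n} (hp : p ∈ e.target) : HolAt (s e) p :=
  holAt_of_on e.open_target (hs.1.hol e he) hp

/-- the jet map on sections -/
def jetL (k D : ℕ) {e : Ch n M} (he : e ∈ atlas (E n) M) {p : E n} (hp : p ∈ e.target) :
    H0 n M k →ₗ[ℂ] JP n D where
  toFun s := jet D p ((s : Fam n M ℂ) e)
  map_add' s t := jet_add (holAt_sec s.2 he hp) (holAt_sec t.2 he hp)
  map_smul' c s := jet_smul c

theorem transfer {k D : ℕ} (hinj : ∀ e ∈ atlas (E n) M, ∀ p ∈ e.target, ∀ s ∈ H0 n M k,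
      VanO (s e) p (D + 1) → s = 0)
    {e₀ : Ch n M} (he₀ : e₀ ∈ atlas (E n) M) {p₀ : E n} (hp₀ : p₀ ∈ e₀.target)
    (h₀ : ∀ P : E n → ℂ, HolAt P p₀ →
      ∃ s ∈ H0 n M k, VanO (fun y => s e₀ y - P y) p₀ (D + 1)) :
    ∀ e ∈ atlas (E n) M, ∀ p ∈ e.target, ∀ P : E n → ℂ, HolAt P p →
      ∃ s ∈ H0 n M k, VanO (fun y => s e y - P y) p (D + 1) := by
  intro e he p hp P hP
  have hI : ∀ {e : Ch n M} (he : e ∈ atlas (E n) M) {p : E n} (hp : p ∈ e.target),
      Function.Injective (jetL (M := M) k D he hp) := by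
    intro e he p hp
    rw [injective_iff_map_eq_zero]
    intro s hs
    have h1 : jet D p ((s : Fam n M ℂ) e) = 0 := hs
    rw [jet_zero_iff (holAt_sec s.2 he hp)] at h1
    exact Subtype.ext (hinj e he p hp s s.2 h1)
  have hR : ∀ {e : Ch n M} (he : e ∈ atlas (E n) M) {p : E n} (hp : p ∈ e.target),
      LinearMap.range (jetL (M := M) k D he hp) ≤ JS n D p₀ := by
    intro e he p hp
    rw [JS_eq D p₀ p]
    rintro _ ⟨s, rfl⟩
    exact ⟨_, holAt_sec s.2 he hp, rfl⟩
  have h1 : LinearMap.range (jetL (M := M) k D he₀ hp₀) = JS n D p₀ := by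
    refine le_antisymm (hR he₀ hp₀) ?_
    rintro _ ⟨f, hf, rfl⟩
    obtain ⟨s, hs, hv⟩ := h₀ f hf
    refine ⟨⟨s, hs⟩, ?_⟩
    have h2 := holAt_sec hs he₀ hp₀
    rw [← jet_zero_iff (holAt_sub h2 hf), jet_sub h2 hf, sub_eq_zero] at hv
    exact hv
  have h2 : Module.finrank ℂ (LinearMap.range (jetL (M := M) k D he hp)) =
      Module.finrank ℂ (JS n D p₀) := by
    rw [← h1, LinearMap.finrank_range_of_inj (hI he hp),
      LinearMap.finrank_range_of_inj (hI he₀ hp₀)]
  have h3 : LinearMap.range (jetL (M := M) k D he hp) = JS n D p₀ :=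
    Submodule.eq_of_le_of_finrank_eq (hR he hp) h2
  have h4 : jet D p P ∈ JS n D p₀ := by
    rw [JS_eq D p₀ p]
    exact ⟨P, hP, rfl⟩
  rw [← h3] at h4
  obtain ⟨s, hs⟩ := h4
  refine ⟨s, s.2, ?_⟩
  have h5 := holAt_sec s.2 he hp
  rw [← jet_zero_iff (holAt_sub h5 hP), jet_sub h5 hP, sub_eq_zero]
  exact hs

end Global

end Q9

end Pool.Agent.helper63.NU
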