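import Pool.Agent.helper63.NU.Defs3
import Pool.Agent.helper41.NU.A1
import Pool.Agent.helper41.NU.A2
import Pool.Agent.helper70.NU.A7
import Pool.Agent.helper69.NU.A9
import Pool.Agent.helper69.NU.B1
import Pool.Agent.helper69.NU.B2
import Pool.Agent.helper51.NU.B3
import Pool.Agent.helper80.NU.B4
import Pool.Agent.helper51.NU.Q9a

set_option autoImplicit false
set_option linter.all false

/-! Module Q9, part b: the density `eg` in charts, cut-off sections. -/

open MeasureTheory Filter Topology Set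
open scoped ContDiff Manifold Matrix ENNReal ComplexOrder

noncomputable section

namespace Pool.Agent.helper63.NU

namespace Q9

section Local

variable {n : ℕ}

/-- cutting off a function holomorphic near a closed ball -/
theorem cut_contDiff {P : E n → ℂ} {p : E n} {R : ℝ} (hP : DifferentiableOn ℂ P (Metric.ball p R))
    (χ : ContDiffBump p) (hR : χ.rOut < R) :
    ContDiff ℝ ∞ (fun y => ((χ y : ℝ) : ℂ) * P y) ∧
    tsupport (fun y => ((χ y : ℝ) : ℂ) * P y) ⊆ Metric.closedBall p χ.rOut ∧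
    HasCompactSupport (fun y => ((χ y : ℝ) : ℂ) * P y) := by
  have hsupp : tsupport (fun y => ((χ y : ℝ) : ℂ) * P y) ⊆ Metric.closedBall p χ.rOut := by
    refine closure_minimal ?_ Metric.isClosed_closedBall
    intro y hy
    by_contra hn
    apply hy
    rw [Metric.mem_closedBall, not_le] at hn
    have : χ y = 0 := χ.zero_of_le_dist hn.le
    simp [this]
  refine ⟨?_, hsupp, HasCompactSupport.of_support_subset_isCompact
    (isCompact_closedBall p χ.rOut) ((subset_tsupport _).trans hsupp)⟩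
  rw [contDiff_iff_contDiffAt]
  intro y
  by_cases hy : y ∈ Metric.ball p R
  · have h1 : ContDiffAt ℝ ∞ (fun y => ((χ y : ℝ) : ℂ)) y :=
      (Complex.ofRealCLM.contDiff.comp χ.contDiff).contDiffAt
    have h2 : ContDiffAt ℝ ∞ P y :=
      (contDiffOn_real_of_hol Metric.isOpen_ball hP).contDiffAt (Metric.isOpen_ball.mem_nhds hy)
    exact h1.mul h2
  · have h1 : y ∉ tsupport (fun y => ((χ y : ℝ) : ℂ) * P y) := by
      intro h
      apply hy
      have := hsupp h
      rw [Metric.mem_closedBall] at this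
      rw [Metric.mem_ball]
      linarith
    have h2 : (fun y => ((χ y : ℝ) : ℂ) * P y) =ᶠ[𝓝 y] fun _ => 0 :=
      notMem_tsupport_iff_eventuallyEq.1 h1
    exact contDiffAt_const.congr_of_eventuallyEq h2

theorem cut_dbv {P : E n → ℂ} {p : E n} {R : ℝ} (hP : DifferentiableOn ℂ P (Metric.ball p R))
    (χ : ContDiffBump p) (hR : χ.rOut < R) {y : E n}
    (hy : dist y p < χ.rIn ∨ χ.rOut < dist y p) :
    dbv (fun y => ((χ y : ℝ) : ℂ) * P y) y = 0 := by
  funext j
  unfold dbv
  rcases hy with hy | hy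
  · have h1 : (fun y => ((χ y : ℝ) : ℂ) * P y) =ᶠ[𝓝 y] P := by
      filter_upwards [Metric.isOpen_ball.mem_nhds (show y ∈ Metric.ball p χ.rIn from hy)] with z hz
      rw [χ.one_of_mem_closedBall (Metric.ball_subset_closedBall hz)]
      simp
    rw [db_congr h1]
    have hyR : y ∈ Metric.ball p R := by
      rw [Metric.mem_ball]
      have := χ.rIn_lt_rOut
      linarith
    exact db_hol (hP.differentiableAt (Metric.isOpen_ball.mem_nhds hyR)) j
  · have h1 : (fun y => ((χ y : ℝ) : ℂ) * P y) =ᶠ[𝓝 y] fun _ => 0 := by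
      have ho : IsOpen {z : E n | χ.rOut < dist z p} :=
        isOpen_lt continuous_const (continuous_id.dist continuous_const)
      filter_upwards [ho.mem_nhds hy] with z hz
      rw [χ.zero_of_le_dist (le_of_lt hz)]
      simp
    rw [db_congr h1]
    exact db_const 0 j y

theorem cn_zero (Θ : Matrix (Fin n) (Fin n) ℂ) : cn Θ 0 0 = 0 := by
  unfold cn
  simp

end Local

variable {n : ℕ} {M : Type*} [TopologicalSpace M] [ChartedSpace (E n) M]
  [IsManifold 𝓘(ℂ, E n) ω M]

/-- `eg` may be computed in any chart -/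
theorem eg_eq {k : ℕ} {φ : Fam n M ℝ} (hφ : IsPos 1 φ) {σ : Fam n M ℂ} (hσ : IsSec k σ)
    {e : Ch n M} (he : e ∈ atlas (E n) M) {x : M} (hx : x ∈ e.source) :
    eg k φ σ x = (cn (lev (φ e) (e x)) (dbv (σ e) (e x)) (dbv (σ e) (e x))).re *
      Real.exp (-(k * φ e (e x))) := by
  unfold eg
  set e' := chartAt (E n) x with he'_def
  have he' : e' ∈ atlas (E n) M := chart_mem_atlas (E n) x
  have hx' : x ∈ e'.source := mem_chart_source (E n) x
  have h3 : jac e' e (e' x) ≠ 0 := jac_ne_zero he' he hx' hx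
  have h4 : (0 : ℝ) < ‖jac e' e (e' x)‖ ^ 2 := by positivity
  have h2 := hφ.trans e' he' e he x ⟨hx', hx⟩
  set D : Matrix (Fin n) (Fin n) ℂ := Matrix.of fun i j =>
    fderiv ℂ (fun z => e (e'.symm z)) (e' x) (Pi.single j 1) i with hD
  have hlev := fun j l => lev_trans hφ.toIsWeight he' he hx' hx j l
  have hdb : ∀ j, dbv (σ e') (e' x) j = (jac e' e (e' x) ^ k)⁻¹ *
      ∑ l, dbv (σ e) (e x) l * (starRingEnd ℂ) (D l j) := by
    intro j
    have h5 := dbv_trans hσ he' he hx' hx j
    have h6 : jac e' e (e' x) ^ k ≠ 0 := pow_ne_zero _ h3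
    rw [eq_inv_mul_iff_mul_eq₀ h6, h5]
    rfl
  have hcn := cn_comp (hφ.pos e' he' (e' x) (e'.map_source hx'))
    (hφ.pos e he (e x) (e.map_source hx)) (D := D) hlev hdb hdb
  rw [hcn, h2, Nat.cast_one, one_mul, mul_sub, neg_sub, sub_eq_add_neg, Real.exp_add]
  have h6 : Real.exp ((k : ℝ) * Real.log (‖jac e' e (e' x)‖ ^ 2)) =
      (‖jac e' e (e' x)‖ ^ 2) ^ k := by
    rw [mul_comm, Real.exp_mul, Real.exp_log h4, Real.rpow_natCast]
  rw [h6]
  have h7 : (jac e' e (e' x) ^ k)⁻¹ * (starRingEnd ℂ) ((jac e' e (e' x) ^ k)⁻¹) =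
      ((((‖jac e' e (e' x)‖ ^ 2) ^ k)⁻¹ : ℝ) : ℂ) := by
    rw [Complex.mul_conj, Complex.normSq_eq_norm_sq, norm_inv, norm_pow]
    congr 1
    rw [inv_pow, ← pow_mul, ← pow_mul, mul_comm k 2]
  rw [h7, Complex.re_ofReal_mul]
  have h8 : (‖jac e' e (e' x)‖ ^ 2) ^ k ≠ 0 := (pow_pos h4 k).ne'
  field_simp

/-- the function `eg` read in a chart is continuous -/
theorem eg_cont {k : ℕ} {φ : Fam n M ℝ} (hφ : IsPos 1 φ) {σ : Fam n M ℂ} (hσ : IsSec k σ)
    {e : Ch n M} (he : e ∈ atlas (E n) M) :
    ContinuousOn (fun y => (cn (lev (φ e) y) (dbv (σ e) y) (dbv (σ e) y)).re *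
      Real.exp (-(k * φ e y))) e.target := by
  have h1 : ContinuousOn (fun y => cn (lev (φ e) y) (dbv (σ e) y) (dbv (σ e) y)) e.target := by
    simp only [cn_eq_left]
    refine continuousOn_finsetSum _ fun j _ => ?_
    refine ContinuousOn.mul ?_ ?_
    · exact (contDiffOn_rs e.open_target (hφ.smooth e he) (hφ.pos e he) (hσ.smooth e he)
        j).continuousOn
    · exact Complex.continuous_conj.comp_continuousOn
        (contDiffOn_db e.open_target (hσ.smooth e he) j).continuousOn
  refine (Complex.continuous_re.comp_continuousOn h1).mul ?_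
  refine Real.continuous_exp.comp_continuousOn ?_
  exact (continuousOn_const.mul (hφ.smooth e he).continuousOn).neg

/-- `∂̄` of a cut-off section vanishes outside the annulus -/
theorem eg_ext_zero [T2Space M] {k : ℕ} {φ : Fam n M ℝ} (hφ : IsPos 1 φ) {e : Ch n M}
    (he : e ∈ atlas (E n) M) {P : E n → ℂ} {p : E n} {R : ℝ}
    (hP : DifferentiableOn ℂ P (Metric.ball p R)) (χ : ContDiffBump p) (hR : χ.rOut < R)
    (hball : Metric.closedBall p χ.rOut ⊆ e.target) {x : M}
    (hx : x ∉ e.symm '' {y | χ.rIn ≤ dist y p ∧ dist y p ≤ χ.rOut}) :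
    eg k φ (ext k e (fun y => ((χ y : ℝ) : ℂ) * P y)) x = 0 := by
  obtain ⟨hu1, hu2, hu3⟩ := cut_contDiff hP χ hR
  have hσ : IsSec k (ext k e (fun y => ((χ y : ℝ) : ℂ) * P y) : Fam n M ℂ) :=
    ext_isSec k he hu1 hu3 (hu2.trans hball)
  by_cases hxe : x ∈ e.source
  · rw [eg_eq hφ hσ he hxe]
    have h1 : dbv ((ext k e (fun y => ((χ y : ℝ) : ℂ) * P y) : Fam n M ℂ) e) (e x) = 0 := by
      have h2 : ((ext k e (fun y => ((χ y : ℝ) : ℂ) * P y) : Fam n M ℂ) e) =ᶠ[𝓝 (e x)]
          (fun y => ((χ y : ℝ) : ℂ) * P y) := by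
        filter_upwards [e.open_target.mem_nhds (e.map_source hxe)] with y hy
        exact ext_apply k he _ hy
      have h3 : dist (e x) p < χ.rIn ∨ χ.rOut < dist (e x) p := by
        by_contra hcon
        push Not at hcon
        exact hx ⟨e x, hcon, e.left_inv hxe⟩
      have h4 := cut_dbv hP χ hR h3
      funext j
      have h5 := congrFun h4 j
      unfold dbv at h5 ⊢
      rw [db_congr h2]
      exact h5
    rw [h1, cn_zero]
    simp
  · unfold eg
    set e' := chartAt (E n) x with he'_def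
    have he' : e' ∈ atlas (E n) M := chart_mem_atlas (E n) x
    have hx' : x ∈ e'.source := mem_chart_source (E n) x
    have hK : IsClosed (e.symm '' Metric.closedBall p χ.rOut) := by
      refine IsCompact.isClosed ?_
      exact (isCompact_closedBall p χ.rOut).image_of_continuousOn
        (e.continuousOn_symm.mono hball)
    have hxK : x ∉ e.symm '' Metric.closedBall p χ.rOut := by
      rintro ⟨y, hy, rfl⟩
      exact hxe (e.map_target (hball hy))
    have h2 : ((ext k e (fun y => ((χ y : ℝ) : ℂ) * P y) : Fam n M ℂ) e') =ᶠ[𝓝 (e' x)]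
        fun _ => 0 := by
      have h3 : ∀ᶠ y in 𝓝 (e' x), e'.symm y ∈ (e.symm '' Metric.closedBall p χ.rOut)ᶜ := by
        have h4 : ContinuousAt e'.symm (e' x) := e'.continuousAt_symm (e'.map_source hx')
        refine h4.eventually (hK.isOpen_compl.mem_nhds ?_)
        rw [e'.left_inv hx']
        exact hxK
      filter_upwards [h3] with y hy
      unfold ext
      split_ifs with h5
      · have h6 : χ (e (e'.symm y)) = 0 := by
          apply χ.zero_of_le_dist
          by_contra hlt
          rw [not_le] at hlt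
          exact hy ⟨e (e'.symm y), hlt.le, e.left_inv h5.2⟩
        simp [h6]
      · rfl
    have h1 : dbv ((ext k e (fun y => ((χ y : ℝ) : ℂ) * P y) : Fam n M ℂ) e') (e' x) = 0 := by
      funext j
      unfold dbv
      rw [db_congr h2]
      exact db_const 0 j _
    rw [h1, cn_zero]
    simp

end Q9

end Pool.Agent.helper63.NU
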