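import Pool.Agent.helper51.NU.Q9b

set_option autoImplicit false
set_option linter.all false

/-! Module Q9, part c: local estimates. -/

open MeasureTheory Filter Topology Set
open scoped ContDiff Manifold Matrix ENNReal ComplexOrder

noncomputable section

namespace Pool.Agent.helper63.NU

namespace Q9

section Local

variable {n : ℕ}

/-- the sum of the squares of functions with leading terms `(y_j - p_j)^m` -/
theorem local_est (hn : 0 < n) {p : E n} {m : ℕ} {f : Fin n → E n → ℂ}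
    (hf : ∀ j, VanO (fun y => f j y - (y j - p j) ^ m) p (m + 1)) :
    ∃ r > 0, ∀ y ∈ Metric.ball p r,
      1 / 4 * ‖y - p‖ ^ (2 * m) ≤ ∑ j, ‖f j y‖ ^ 2 ∧
      ∑ j, ‖f j y‖ ^ 2 ≤ 4 * n * ‖y - p‖ ^ (2 * m) := by
  choose K hK using hf
  obtain ⟨C, hC0, hC⟩ : ∃ C > 0, ∀ j, K j ≤ C := by
    refine ⟨∑ j, |K j| + 1, by positivity, fun j => ?_⟩
    have h1 : |K j| ≤ ∑ j, |K j| := Finset.single_le_sum (f := fun j => |K j|)
      (fun _ _ => abs_nonneg _) (Finset.mem_univ j)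
    have h2 := le_abs_self (K j)
    linarith
  obtain ⟨r, hr, h1⟩ := Metric.eventually_nhds_iff_ball.1 (eventually_all.2 hK)
  refine ⟨min r (1 / (2 * C)), lt_min hr (by positivity), fun y hy => ?_⟩
  have hyr : y ∈ Metric.ball p r := Metric.ball_subset_ball (min_le_left _ _) hy
  have hyC : ‖y - p‖ < 1 / (2 * C) := by
    rw [Metric.mem_ball, dist_eq_norm] at hy
    exact hy.trans_le (min_le_right _ _)
  have hyC' : C * ‖y - p‖ ≤ 1 / 2 := by
    rw [lt_div_iff₀ (by positivity)] at hyC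
    linarith
  have h2 : ∀ j, ‖f j y - (y j - p j) ^ m‖ ≤ 1 / 2 * ‖y - p‖ ^ m := by
    intro j
    refine (h1 y hyr j).trans ?_
    rw [pow_succ]
    calc K j * (‖y - p‖ ^ m * ‖y - p‖) ≤ C * (‖y - p‖ ^ m * ‖y - p‖) := by
          gcongr; exact hC j
      _ = (C * ‖y - p‖) * ‖y - p‖ ^ m := by ring
      _ ≤ 1 / 2 * ‖y - p‖ ^ m := by gcongr
  have h3 : ∀ j, ‖(y j - p j) ^ m‖ ≤ ‖y - p‖ ^ m := by
    intro j
    rw [norm_pow]
    gcongr
    exact norm_le_pi_norm (y - p) j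
  have hP0 : 0 ≤ ‖y - p‖ ^ m := by positivity
  constructor
  · obtain ⟨j, hj⟩ : ∃ j : Fin n, ‖y - p‖ ≤ ‖y j - p j‖ := by
      by_contra hcon
      push Not at hcon
      have h0 : 0 < ‖y - p‖ := (norm_nonneg _).trans_lt (hcon ⟨0, hn⟩)
      have := (pi_norm_lt_iff h0).2 hcon
      exact lt_irrefl _ this
    have h4 : ‖y - p‖ ^ m ≤ ‖(y j - p j) ^ m‖ := by
      rw [norm_pow]
      gcongr
    have h5 : ‖(y j - p j) ^ m‖ ≤ ‖f j y‖ + ‖f j y - (y j - p j) ^ m‖ := by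
      have h6 : (y j - p j) ^ m = f j y - (f j y - (y j - p j) ^ m) := by ring
      calc ‖(y j - p j) ^ m‖ = ‖f j y - (f j y - (y j - p j) ^ m)‖ := by rw [← h6]
        _ ≤ _ := norm_sub_le _ _
    have h6 : 1 / 2 * ‖y - p‖ ^ m ≤ ‖f j y‖ := by
      have := h2 j
      linarith
    calc 1 / 4 * ‖y - p‖ ^ (2 * m) = (1 / 2 * ‖y - p‖ ^ m) ^ 2 := by
          rw [mul_pow, ← pow_mul, mul_comm m 2]; norm_num
      _ ≤ ‖f j y‖ ^ 2 := by gcongr
      _ ≤ ∑ j, ‖f j y‖ ^ 2 := Finset.single_le_sum (f := fun j => ‖f j y‖ ^ 2)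
          (fun _ _ => sq_nonneg _) (Finset.mem_univ j)
  · have h4 : ∀ j ∈ (Finset.univ : Finset (Fin n)), ‖f j y‖ ^ 2 ≤ 4 * ‖y - p‖ ^ (2 * m) := by
      intro j _
      have h5 : ‖f j y‖ ≤ 2 * ‖y - p‖ ^ m := by
        have h6 : f j y = (y j - p j) ^ m + (f j y - (y j - p j) ^ m) := by ring
        rw [h6]
        refine (norm_add_le _ _).trans ?_
        have := h2 j
        have := h3 j
        linarith
      calc ‖f j y‖ ^ 2 ≤ (2 * ‖y - p‖ ^ m) ^ 2 := by gcongr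
        _ = 4 * ‖y - p‖ ^ (2 * m) := by rw [mul_pow, ← pow_mul, mul_comm m 2]; norm_num
    refine (Finset.sum_le_card_nsmul _ _ _ h4).trans (le_of_eq ?_)
    rw [Finset.card_univ, Fintype.card_fin, nsmul_eq_mul]
    ring

/-- the weight `(C ‖v‖^{2m})^{-a}` -/
theorem ennreal_weight {C s a : ℝ} (hC : 0 < C) (hs : 0 ≤ s) (m : ℕ) :
    (ENNReal.ofReal (C * s ^ (2 * m))) ^ (-a) =
      (ENNReal.ofReal C) ^ (-a) * (ENNReal.ofReal s) ^ (-2 * (a * m)) := by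
  rw [ENNReal.ofReal_mul hC.le, ENNReal.mul_rpow_of_ne_top ENNReal.ofReal_ne_top
    ENNReal.ofReal_ne_top, ENNReal.ofReal_pow hs, ← ENNReal.rpow_natCast, ← ENNReal.rpow_mul]
  congr 2
  push_cast
  ring

theorem ennreal_anti {x y : ℝ≥0∞} (h : x ≤ y) {a : ℝ} (ha : 0 ≤ a) : y ^ (-a) ≤ x ^ (-a) := by
  rw [ENNReal.rpow_neg, ENNReal.rpow_neg]
  exact ENNReal.inv_le_inv.2 (ENNReal.rpow_le_rpow h ha)

end Local

end Q9

end Pool.Agent.helper63.NU
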