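import Pool.Agent.helper51.NU.Q9c
import Pool.Agent.helper53.NU.Q8
import Pool.Agent.helper39.NU.Q8b

set_option autoImplicit false
set_option linter.all false

/-! Module Q9, part d: prescribed jets. -/

open MeasureTheory Filter Topology Set
open scoped ContDiff Manifold Matrix ENNReal ComplexOrder

noncomputable section

namespace Pool.Agent.helper63.NU

namespace Q9

variable {n : ℕ} {M : Type*} [TopologicalSpace M] [ChartedSpace (E n) M]
  [IsManifold 𝓘(ℂ, E n) ω M]
variable [CompactSpace M] [T2Space M] [ConnectedSpace M]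
variable [MeasurableSpace M] [BorelSpace M] {μ : Measure M} {φ : Fam n M ℝ}

theorem WT_one {r : Unit} (φ : Fam n M ℝ) (K : ℕ) (t : Fin n → Fam n M ℂ) (a : ℝ) (x : M) :
    WT φ (fun _ : Fin 1 => K) (fun _ => n) (fun _ => t) (fun _ => a) x =
      (ENNReal.ofReal (∑ β, nrm K φ (t β) x)) ^ (-a) := by
  unfold WT
  rw [Fin.prod_univ_one]

theorem main (hn : 0 < n) (hφ : IsPos 1 φ) (hμ : IsDens μ φ) {k K m D : ℕ} (hk : 1 ≤ k)
    (hK : 1 ≤ K) {a0 : ℝ} (ha0 : 0 < a0) (ha1 : a0 < k + 1)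
    (hD : (D : ℝ) + n ≤ (k + 1 - a0) / K * m)
    {e : Ch n M} (he : e ∈ atlas (E n) M) {p : E n} (hp : p ∈ e.target)
    (hjet : ∀ P : E n → ℂ, HolAt P p →
      ∃ s ∈ H0 n M K, VanO (fun y => s e y - P y) p (m + 1)) :
    ∀ P : E n → ℂ, HolAt P p → ∃ s ∈ H0 n M k, VanO (fun y => s e y - P y) p (D + 1) := by
  intro P hP
  have hK0 : (0 : ℝ) < K := by exact_mod_cast hK
  set a : ℝ := (k + 1 - a0) / K with ha_def
  have ha : 0 < a := div_pos (by linarith) hK0
  -- sections with leading terms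
  have hex : ∀ j : Fin n, ∃ s ∈ H0 n M K, VanO (fun y => s e y - (y j - p j) ^ m) p (m + 1) := by
    intro j
    refine hjet (fun y => (y j - p j) ^ m) (Filter.Eventually.of_forall fun y => ?_)
    have h1 : DifferentiableAt ℂ (fun y : E n => y j - p j) y := by fun_prop
    exact h1.pow m
  choose t ht htv using hex
  obtain ⟨r0, hr0, hest⟩ := local_est (f := fun j => t j e) hn htv
  obtain ⟨r1, hr1, hPd⟩ := holAt_iff.1 hP
  obtain ⟨r2, hr2, hball⟩ := Metric.nhds_basis_closedBall.mem_iff.1 (e.open_target.mem_nhds hp)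
  obtain ⟨R, hR0, hR⟩ : ∃ R > 0, R ≤ r0 ∧ R ≤ r1 ∧ R ≤ r2 :=
    ⟨min r0 (min r1 r2), by positivity, min_le_left _ _,
      (min_le_right _ _).trans (min_le_left _ _), (min_le_right _ _).trans (min_le_right _ _)⟩
  have hPR : DifferentiableOn ℂ P (Metric.ball p R) := hPd.mono (Metric.ball_subset_ball hR.2.1)
  have hbR : Metric.closedBall p R ⊆ e.target :=
    (Metric.closedBall_subset_closedBall hR.2.2).trans hball
  set χ : ContDiffBump p := ⟨R / 4, R / 2, by positivity, by linarith⟩ with hχ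
  have hin : χ.rIn = R / 4 := rfl
  have hout : χ.rOut = R / 2 := rfl
  have hχR : χ.rOut < R := by rw [hout]; linarith
  have hbχ : Metric.closedBall p χ.rOut ⊆ e.target :=
    (Metric.closedBall_subset_closedBall hχR.le).trans hbR
  obtain ⟨hu1, hu2, hu3⟩ := cut_contDiff hPR χ hχR
  set σ : Fam n M ℂ := ext k e (fun y => ((χ y : ℝ) : ℂ) * P y) with hσ_def
  have hσ : IsSec k σ := ext_isSec k he hu1 hu3 (hu2.trans hbχ)
  -- the function G
  set G : M → ℝ := fun x => ∑ β, nrm K φ (t β) x with hG_def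
  have hGc : Continuous G := continuous_finsetSum _ fun β _ =>
    continuous_nrm hφ.toIsWeight (ht β).1.toIsSec
  have hGe : ∀ y ∈ e.target, G (e.symm y) = (∑ β, ‖t β e y‖ ^ 2) * Real.exp (-(K * φ e y)) := by
    intro y hy
    rw [hG_def]
    simp only
    rw [Finset.sum_mul]
    refine Finset.sum_congr rfl fun β _ => ?_
    rw [nrm_eq hφ.toIsWeight (ht β).1.toIsSec he (e.map_target hy), e.right_inv hy]
  have hφc : ContinuousOn (φ e) e.target := (hφ.smooth e he).continuousOn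
  -- the annulus
  set A : Set (E n) := {y | χ.rIn ≤ dist y p ∧ dist y p ≤ χ.rOut} with hA
  have hAc : IsCompact A := by
    refine (isCompact_closedBall p χ.rOut).of_isClosed_subset ?_ fun y hy => hy.2
    exact (isClosed_le continuous_const (continuous_id.dist continuous_const)).inter
      (isClosed_le (continuous_id.dist continuous_const) continuous_const)
  have hAt : A ⊆ e.target := fun y hy => hbχ hy.2
  set S : Set M := e.symm '' A with hS
  have hSc : IsCompact S := hAc.image_of_continuousOn (e.continuousOn_symm.mono hAt)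
  have hGpos : ∀ x ∈ S, 0 < G x := by
    rintro _ ⟨y, hy, rfl⟩
    rw [hGe y (hAt hy)]
    refine mul_pos ?_ (Real.exp_pos _)
    have h1 : y ∈ Metric.ball p r0 := by
      rw [Metric.mem_ball]
      have := hy.2
      rw [hout] at this
      linarith [hR.1]
    refine lt_of_lt_of_le ?_ (hest y h1).1
    have h2 : 0 < ‖y - p‖ := by
      rw [← dist_eq_norm]
      have := hy.1
      rw [hin] at this
      linarith
    positivity
  obtain ⟨c, hc0, hc⟩ : ∃ c > 0, ∀ x ∈ S, c ≤ G x := by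
    rcases S.eq_empty_or_nonempty with h | h
    · exact ⟨1, one_pos, fun x hx => by rw [h] at hx; exact absurd hx (notMem_empty x)⟩
    · obtain ⟨x0, hx0, h1⟩ := hSc.exists_isMinOn h hGc.continuousOn
      exact ⟨G x0, hGpos x0 hx0, fun x hx => h1 hx⟩
  obtain ⟨B, hB⟩ : ∃ B, ∀ x ∈ S, eg k φ σ x ≤ B := by
    have h1 := (hAc.image_of_continuousOn ((eg_cont hφ hσ he).mono hAt)).bddAbove
    obtain ⟨B, hB⟩ := h1
    refine ⟨B, ?_⟩
    rintro _ ⟨y, hy, rfl⟩
    rw [eg_eq hφ hσ he (e.map_target (hAt hy)), e.right_inv (hAt hy)]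
    exact hB ⟨y, hy, rfl⟩
  have hμf : IsFiniteMeasure μ := isFiniteMeasure_of_isDens hφ.toIsWeight hμ
  -- finiteness
  have hfin : ∫⁻ x, WT φ (fun _ : Fin 1 => K) (fun _ => n) (fun _ => t) (fun _ => a) x *
      ENNReal.ofReal (eg k φ σ x) ∂μ ≠ ⊤ := by
    have h1 : ∀ x, WT φ (fun _ : Fin 1 => K) (fun _ => n) (fun _ => t) (fun _ => a) x *
        ENNReal.ofReal (eg k φ σ x) ≤ (ENNReal.ofReal c) ^ (-a) * ENNReal.ofReal B := by
      intro x
      rw [WT_one (r := ()) φ K t a x]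
      by_cases hx : x ∈ S
      · refine mul_le_mul' ?_ (ENNReal.ofReal_le_ofReal (hB x hx))
        exact ennreal_anti (ENNReal.ofReal_le_ofReal (hc x hx)) ha.le
      · rw [eg_ext_zero hφ he hPR χ hχR hbχ hx, ENNReal.ofReal_zero, mul_zero]
        exact bot_le
    refine ne_top_of_le_ne_top ?_ (lintegral_mono h1)
    rw [lintegral_const]
    refine ENNReal.mul_ne_top (ENNReal.mul_ne_top ?_ ENNReal.ofReal_ne_top) (measure_ne_top μ _)
    rw [ENNReal.rpow_neg]
    refine ENNReal.inv_ne_top.2 ?_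
    exact (ENNReal.rpow_pos (ENNReal.ofReal_pos.2 hc0) ENNReal.ofReal_ne_top).ne'
  obtain ⟨h, hh, hle⟩ := horm_sing (r := 1) (L := fun _ => K) (q := fun _ => n) (t := fun _ => t)
    (a := fun _ => a) hφ hμ hk (fun _ β => (ht β).1) (fun _ => ha.le) ha0
    (by
      rw [Fin.sum_univ_one, ha_def, div_mul_cancel₀ _ hK0.ne']
      ring) hσ hfin
  have hfin2 : ∫⁻ x, WT φ (fun _ : Fin 1 => K) (fun _ => n) (fun _ => t) (fun _ => a) x *
      ENNReal.ofReal (nrm k φ (σ - h) x) ∂μ ≠ ⊤ :=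
    ne_top_of_le_ne_top (ENNReal.mul_ne_top ENNReal.ofReal_ne_top hfin) hle
  have hσh : IsSec k (σ - h) := hσ.sub hh.1.toIsSec
  -- in the chart
  have hmeas : Measurable fun x => (ENNReal.ofReal (G x)) ^ (-a) *
      ENNReal.ofReal (nrm k φ (σ - h) x) := by
    refine Measurable.mul ?_ ?_
    · exact (ENNReal.measurable_ofReal.comp hGc.measurable).pow_const _
    · exact ENNReal.measurable_ofReal.comp
        (continuous_nrm hφ.toIsWeight hσh).measurable
  have hfin3 : ∫⁻ y in e.target, ((ENNReal.ofReal (G (e.symm y))) ^ (-a) *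
      ENNReal.ofReal (nrm k φ (σ - h) (e.symm y))) * ENNReal.ofReal (Real.exp (-φ e y)) ≠ ⊤ := by
    rw [← hμ e he _ hmeas]
    refine ne_top_of_le_ne_top hfin2 ?_
    refine (setLIntegral_le_lintegral _ _).trans (lintegral_mono fun x => ?_)
    rw [WT_one (r := ()) φ K t a x]
  -- lower bound near p
  obtain ⟨c1, hc1, hc1'⟩ : ∃ c1 > 0, ∀ y ∈ Metric.closedBall p R,
      c1 ≤ Real.exp (-(k * φ e y)) * Real.exp (-φ e y) := by
    have h1 : ContinuousOn (fun y => Real.exp (-(k * φ e y)) * Real.exp (-φ e y))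
        (Metric.closedBall p R) := by
      refine ContinuousOn.mul ?_ ?_
      · exact Real.continuous_exp.comp_continuousOn
          ((continuousOn_const.mul (hφc.mono hbR)).neg)
      · exact Real.continuous_exp.comp_continuousOn (hφc.mono hbR).neg
    obtain ⟨y0, hy0, h2⟩ := (isCompact_closedBall p R).exists_isMinOn
      ⟨p, Metric.mem_closedBall_self hR0.le⟩ h1
    exact ⟨_, by positivity, fun y hy => h2 hy⟩
  obtain ⟨c2, hc2, hc2'⟩ : ∃ c2 > 0, ∀ y ∈ Metric.closedBall p R,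
      Real.exp (-(K * φ e y)) ≤ c2 := by
    have h1 : ContinuousOn (fun y => Real.exp (-(K * φ e y))) (Metric.closedBall p R) :=
      Real.continuous_exp.comp_continuousOn ((continuousOn_const.mul (hφc.mono hbR)).neg)
    obtain ⟨y0, hy0, h2⟩ := (isCompact_closedBall p R).exists_isMaxOn
      ⟨p, Metric.mem_closedBall_self hR0.le⟩ h1
    exact ⟨_, by positivity, fun y hy => h2 hy⟩
  set C4 : ℝ := 4 * n * c2 with hC4
  have hn0 : (0 : ℝ) < n := by exact_mod_cast hn
  have hC4pos : 0 < C4 := by positivity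
  set w : ℝ≥0∞ := (ENNReal.ofReal C4) ^ (-a) * ENNReal.ofReal c1 with hw
  have hw0 : w ≠ 0 := by
    refine mul_ne_zero ?_ (ENNReal.ofReal_pos.2 hc1).ne'
    rw [ENNReal.rpow_neg]
    refine ENNReal.inv_ne_zero.2 ?_
    exact ENNReal.rpow_ne_top_of_nonneg ha.le ENNReal.ofReal_ne_top
  have hwt : w ≠ ⊤ := by
    refine ENNReal.mul_ne_top ?_ ENNReal.ofReal_ne_top
    rw [ENNReal.rpow_neg]
    refine ENNReal.inv_ne_top.2 ?_
    exact (ENNReal.rpow_pos (ENNReal.ofReal_pos.2 hC4pos) ENNReal.ofReal_ne_top).ne'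
  have hlow : ∀ y ∈ Metric.ball p (R / 4),
      w * (ENNReal.ofReal (‖h e y - P y‖ ^ 2) * (ENNReal.ofReal ‖y - p‖) ^ (-2 * (a * m))) ≤
      ((ENNReal.ofReal (G (e.symm y))) ^ (-a) *
      ENNReal.ofReal (nrm k φ (σ - h) (e.symm y))) * ENNReal.ofReal (Real.exp (-φ e y)) := by
    intro y hy
    have hyR : y ∈ Metric.closedBall p R := by
      rw [Metric.mem_ball] at hy
      rw [Metric.mem_closedBall]
      linarith
    have hyt : y ∈ e.target := hbR hyR
    have hy0 : y ∈ Metric.ball p r0 := by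
      rw [Metric.mem_ball] at hy ⊢
      linarith [hR.1]
    have hσe : σ e y = P y := by
      rw [hσ_def, ext_apply k he _ hyt]
      rw [χ.one_of_mem_closedBall (by rw [hin]; exact Metric.ball_subset_closedBall hy)]
      simp
    have h1 : nrm k φ (σ - h) (e.symm y) = ‖h e y - P y‖ ^ 2 * Real.exp (-(k * φ e y)) := by
      rw [nrm_eq hφ.toIsWeight hσh he (e.map_target hyt), e.right_inv hyt, Pi.sub_apply,
        Pi.sub_apply, hσe, norm_sub_rev]
    have h2 : G (e.symm y) ≤ C4 * ‖y - p‖ ^ (2 * m) := by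
      rw [hGe y hyt]
      calc (∑ β, ‖t β e y‖ ^ 2) * Real.exp (-(K * φ e y))
          ≤ (4 * n * ‖y - p‖ ^ (2 * m)) * c2 := by
            refine mul_le_mul (hest y hy0).2 (hc2' y hyR) (Real.exp_pos _).le (by positivity)
        _ = C4 * ‖y - p‖ ^ (2 * m) := by rw [hC4]; ring
    have h3 : (ENNReal.ofReal C4) ^ (-a) * (ENNReal.ofReal ‖y - p‖) ^ (-2 * (a * m)) ≤
        (ENNReal.ofReal (G (e.symm y))) ^ (-a) := by
      rw [← ennreal_weight hC4pos (norm_nonneg _) m]
      exact ennreal_anti (ENNReal.ofReal_le_ofReal h2) ha.le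
    rw [h1, ENNReal.ofReal_mul (by positivity), hw]
    calc (ENNReal.ofReal C4) ^ (-a) * ENNReal.ofReal c1 *
          (ENNReal.ofReal (‖h e y - P y‖ ^ 2) * (ENNReal.ofReal ‖y - p‖) ^ (-2 * (a * m)))
        = ((ENNReal.ofReal C4) ^ (-a) * (ENNReal.ofReal ‖y - p‖) ^ (-2 * (a * m))) *
          (ENNReal.ofReal (‖h e y - P y‖ ^ 2) * ENNReal.ofReal c1) := by ring
      _ ≤ (ENNReal.ofReal (G (e.symm y))) ^ (-a) *
          (ENNReal.ofReal (‖h e y - P y‖ ^ 2) *
            ENNReal.ofReal (Real.exp (-(k * φ e y)) * Real.exp (-φ e y))) := by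
          refine mul_le_mul' h3 (mul_le_mul' le_rfl ?_)
          exact ENNReal.ofReal_le_ofReal (hc1' y hyR)
      _ = _ := by
          rw [ENNReal.ofReal_mul (Real.exp_pos _).le]
          ring
  have hfin4 : ∫⁻ y in Metric.ball p (R / 4),
      w * (ENNReal.ofReal (‖h e y - P y‖ ^ 2) *
        (ENNReal.ofReal ‖y - p‖) ^ (-2 * (a * m))) ≠ ⊤ := by
    refine ne_top_of_le_ne_top hfin3 ?_
    refine (setLIntegral_mono' Metric.isOpen_ball.measurableSet hlow).trans ?_
    refine lintegral_mono_set ?_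
    intro y hy
    refine hbR ?_
    rw [Metric.mem_ball] at hy
    rw [Metric.mem_closedBall]
    linarith
  have hfin5 : ∫⁻ y in Metric.ball p (R / 4),
      (ENNReal.ofReal (‖h e y - P y‖ ^ 2) *
        (ENNReal.ofReal ‖y - p‖) ^ (-2 * (a * m))) ≠ ⊤ := by
    rw [lintegral_const_mul' _ _ hwt] at hfin4
    intro hcon
    rw [hcon, ENNReal.mul_top hw0] at hfin4
    exact hfin4 rfl
  refine ⟨h, hh, ?_⟩
  have hhol : HolAt (fun y => h e y - P y) p := holAt_sub (holAt_sec hh he hp) hP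
  refine l2_vanish (m := D + 1) hn hhol (show 0 < R / 4 by positivity) hfin5 ?_
  push_cast
  linarith

end Q9

end Pool.Agent.helper63.NU
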